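import Mathlib

/-!
# The Sylow graph of a mutually permutable product

If the finite group `G = AB` is a mutually permutable product of its subgroups `A` and `B`, then
`Γ_s(G) ⊆ Γ_s(A) ∪ Γ_s(B) ∪ Γ(A, B)`.

Outline of the proof. Let `(p, q)` be an edge of `Γ_s(G)`. Put `G₀ = A B_p` and `G₁ = B A_p`, where
`A_p`, `B_p` are Sylow `p`-subgroups of `A`, `B`. Then `G = G₀ G₁`, both indices are prime to `p`,
some Sylow `p`-subgroup `P` of `G` lies in `G₀ ∩ G₁`, and `N_G(P) = N_{G₀}(P) N_{G₁}(P)`. So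
`(p, q)` is an edge of `Γ_s(G₀)` or of `Γ_s(G₁)`, say of `Γ_s(G₀)`. Now `G₀` is joined to `A` by a
chain of subgroups `A U`, `U ≤ B_p`, each of index `p` in the one before, and one descends along the
chain: if `M` has index `p` in `H`, and `x` is a `q`-element normalising but not centralising a Sylow
`p`-subgroup `P` of `H`, then `x` fixes a coset of `M`, so after conjugation `x ∈ M`, and then
`P ∩ M` is a Sylow `p`-subgroup of `M`; either `x` does not centralise it, or counting the fixed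
points of `x` on `P` gives `q ∣ p - 1`.
-/

set_option autoImplicit false

open scoped Pointwise

namespace Pool.Agent.Results.MP_b4773a_al.SylowGraph

/-! ## Definitions from the problem file -/

/-- `π(X)`: the set of prime divisors of the order of the group `X`. -/
def primesOf (X : Type*) [Group X] : Set ℕ :=
  {p | p.Prime ∧ p ∣ Nat.card X}

/-- A directed graph on a set of natural numbers: a vertex set `V` and a set `E` of ordered pairs
(the edges). -/
structure PrimeGraph where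
  /-- the vertices -/
  V : Set ℕ
  /-- the edges -/
  E : Set (ℕ × ℕ)

/-- The order of the group `N_X(P) / P C_X(P)`. (Here `P ⊔ C_X(P)` is the subgroup `P C_X(P)`.) -/
noncomputable def autoOrder {X : Type*} [Group X] (P : Subgroup X) : ℕ :=
  Nat.card (↥(Subgroup.normalizer (P : Set X)) ⧸
    (P ⊔ Subgroup.centralizer (P : Set X)).subgroupOf (Subgroup.normalizer (P : Set X)))

/-- The Sylow graph `Γ_s(X)`: its vertex set is `π(X)`, and `(p, q)` is an edge iff `p` and `q` are
vertices and `q ∈ π(N_X(P) / P C_X(P))` for some Sylow `p`-subgroup `P` of `X`. -/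
def sylowGraph (X : Type*) [Group X] : PrimeGraph where
  V := primesOf X
  E := {e | e.1 ∈ primesOf X ∧ e.2 ∈ primesOf X ∧
        ∃ P : Sylow e.1 X, e.2.Prime ∧ e.2 ∣ autoOrder (P : Subgroup X)}

/-- `G = AB` is a mutually permutable product of its subgroups `A` and `B`. -/
structure IsMutuallyPermutableProduct {G : Type*} [Group G] (A B : Subgroup G) : Prop where
  /-- `G = AB` -/
  mul_eq : (A : Set G) * (B : Set G) = Set.univ
  /-- `AU = UA` for every `U ≤ B` -/
  left : ∀ U : Subgroup G, U ≤ B → (A : Set G) * (U : Set G) = (U : Set G) * (A : Set G)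
  /-- `BV = VB` for every `V ≤ A` -/
  right : ∀ V : Subgroup G, V ≤ A → (B : Set G) * (V : Set G) = (V : Set G) * (B : Set G)

/-- The set of edges `Γ(A, B)`: the pairs `(p, q)` of primes such that `p ∈ π(A)` and
`q ∈ π(B) ∩ π(p - 1)`, or `p ∈ π(B)` and `q ∈ π(A) ∩ π(p - 1)`. -/
def crossEdges (A B : Type*) [Group A] [Group B] : Set (ℕ × ℕ) :=
  {e | (e.1 ∈ primesOf A ∧ e.2 ∈ primesOf B ∧ e.2 ∣ e.1 - 1) ∨
       (e.1 ∈ primesOf B ∧ e.2 ∈ primesOf A ∧ e.2 ∣ e.1 - 1)}

/-! ## Auxiliary notion -/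

/-- Some element of `q`-power order normalises but does not centralise a Sylow `p`-subgroup. -/
def Moves (p q : ℕ) (X : Type*) [Group X] : Prop :=
  ∃ P : Sylow p X, ∃ x ∈ Subgroup.normalizer (P : Set X), (∃ k : ℕ, x ^ q ^ k = 1) ∧
    ∃ u ∈ P, x * u ≠ u * x

lemma Moves.of_equiv {p q : ℕ} {X Y : Type*} [Group X] [Group Y] (e : X ≃* Y)
    (h : Moves p q X) : Moves p q Y := by
  obtain ⟨P, x, hx, ⟨k, hk⟩, u, hu, hne⟩ := h
  have hmem : ∀ y : Y, y ∈ (P.comapOfInjective (e.symm : Y →* X) e.symm.injective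
      (fun z _ => ⟨e z, by simp⟩) : Sylow p Y) ↔ e.symm y ∈ P := fun y => Iff.rfl
  refine ⟨P.comapOfInjective (e.symm : Y →* X) e.symm.injective (fun z _ => ⟨e z, by simp⟩),
    e x, ?_, ⟨k, ?_⟩, e u, ?_, ?_⟩
  · rw [Subgroup.mem_set_normalizer_iff] at hx ⊢
    intro h
    have := hx (e.symm h)
    rw [SetLike.mem_coe, SetLike.mem_coe] at this ⊢
    rw [hmem, hmem]
    simpa using this
  · rw [← map_pow, hk, map_one]
  · rw [hmem]; simpa using hu
  · intro h
    apply hne
    apply e.injective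
    simpa using h

/-- If `X = S M` then `|X : M| = |S : S ∩ M|`. -/
lemma index_eq_relIndex {X : Type*} [Group X] (S M : Subgroup X)
    (h : (S : Set X) * (M : Set X) = Set.univ) : M.index = M.relIndex S := by
  have htr : MulAction.IsPretransitive S (X ⧸ M) := by
    rw [MulAction.isPretransitive_iff_base (((1 : X) : X ⧸ M))]
    intro y
    induction y using QuotientGroup.induction_on with
    | H y =>
      have hy : y ∈ (S : Set X) * (M : Set X) := by rw [h]; trivial
      obtain ⟨s, hs, m, hm, rfl⟩ := Set.mem_mul.mp hy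
      refine ⟨⟨s, hs⟩, ?_⟩
      change ((s * 1 : X) : X ⧸ M) = _
      rw [QuotientGroup.eq]
      simpa using hm
  have h1 := MulAction.index_stabilizer_of_transitive S (((1 : X) : X ⧸ M))
  have h2 : MulAction.stabilizer S (((1 : X) : X ⧸ M)) = M.subgroupOf S := by
    ext s
    rw [MulAction.mem_stabilizer_iff, Subgroup.mem_subgroupOf]
    change (((s : X) * 1 : X) : X ⧸ M) = _ ↔ _
    rw [QuotientGroup.eq]
    simp
  rw [h2] at h1
  rw [Subgroup.relIndex, h1, Subgroup.index]

/-- Counting fixed points: if an element `x` of `q`-power order normalises the `p`-group `P`,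
centralises a subgroup `D` of index `p` in `P`, but does not centralise `P`, then `q ∣ p - 1`. -/
lemma dvd_of_centralizes_index {X : Type*} [Group X] [Finite X] {p q : ℕ} [hp : Fact p.Prime]
    [hq : Fact q.Prime] (hpq : p ≠ q) (P D : Subgroup X) (hP : IsPGroup p P) (hD : D ≤ P)
    (hind : D.relIndex P = p) (x : X) (hx : x ∈ Subgroup.normalizer (P : Set X))
    (hxq : ∃ k : ℕ, x ^ q ^ k = 1) (hcent : ∀ d ∈ D, x * d = d * x)
    (hne : ∃ u ∈ P, x * u ≠ u * x) : q ∣ p - 1 := by
  classical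
  -- the `q`-group generated by `x` acts on `P`
  have hZle : Subgroup.zpowers x ≤ Subgroup.normalizer (P : Set X) := by
    rw [Subgroup.zpowers_le]; exact hx
  have hZ : IsPGroup q (Subgroup.zpowers x) := by
    obtain ⟨k, hk⟩ := hxq
    rintro ⟨y, hy⟩
    obtain ⟨n, rfl⟩ := Subgroup.mem_zpowers_iff.mp hy
    refine ⟨k, ?_⟩
    ext
    push_cast
    rw [← zpow_natCast, ← zpow_mul, mul_comm, zpow_mul, zpow_natCast, hk, one_zpow]
  let act : MulAction (Subgroup.zpowers x) P :=
    MulAction.compHom P (Subgroup.inclusion hZle)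
  have hact : ∀ (z : Subgroup.zpowers x) (u : P), ((z • u : P) : X) = z * u * (z : X)⁻¹ := by
    intro z u; rfl
  have hmod := hZ.card_modEq_card_fixedPoints P
  -- the fixed points are the centraliser
  set F : Subgroup X := P ⊓ Subgroup.centralizer {x} with hF
  have hmemF : ∀ u, u ∈ F ↔ u ∈ P ∧ x * u = u * x := by
    intro u
    rw [hF, Subgroup.mem_inf, Subgroup.mem_centralizer_singleton_iff]
    constructor
    · rintro ⟨h1, h2⟩; exact ⟨h1, h2.symm⟩
    · rintro ⟨h1, h2⟩; exact ⟨h1, h2.symm⟩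
  have hcardF : Nat.card (MulAction.fixedPoints (Subgroup.zpowers x) P) = Nat.card F := by
    refine Nat.card_congr ⟨fun u => ⟨u.1.1, ?_⟩, fun u => ⟨⟨u.1, ?_⟩, ?_⟩, ?_, ?_⟩
    · rw [hmemF]
      refine ⟨u.1.2, ?_⟩
      have := u.2 ⟨x, Subgroup.mem_zpowers x⟩
      have h2 := congrArg (Subtype.val) this
      rw [hact] at h2
      rw [mul_inv_eq_iff_eq_mul] at h2
      exact h2
    · exact ((hmemF _).mp u.2).1
    · rintro ⟨z, hz⟩
      apply Subtype.ext
      rw [hact]
      have hc : Commute x u.1 := ((hmemF _).mp u.2).2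
      obtain ⟨n, rfl⟩ := Subgroup.mem_zpowers_iff.mp hz
      have hc2 : Commute (x ^ n) u.1 := hc.zpow_left n
      simp [hc2.eq]
    · intro u; rfl
    · intro u; rfl
  rw [hcardF] at hmod
  -- sizes
  have hDF : D ≤ F := fun d hd => (hmemF d).mpr ⟨hD hd, hcent d hd⟩
  have hFP : F ≤ P := inf_le_left
  have h1 : D.relIndex F * F.relIndex P = D.relIndex P := Subgroup.relIndex_mul_relIndex D F P hDF hFP
  rw [hind] at h1
  have hFne : F.relIndex P ≠ 1 := by
    intro h
    rw [Subgroup.relIndex_eq_one] at h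
    obtain ⟨u, hu, hne⟩ := hne
    exact hne ((hmemF u).mp (h hu)).2
  have hFp : F.relIndex P = p := by
    have : F.relIndex P ∣ p := ⟨D.relIndex F, by rw [mul_comm]; exact h1.symm⟩
    rcases (Nat.dvd_prime hp.out).mp this with h | h
    · exact absurd h hFne
    · exact h
  have hcard : Nat.card P = Nat.card F * p := by
    have h2 := Subgroup.relIndex_mul_relIndex ⊥ F P bot_le hFP
    rw [Subgroup.relIndex_bot_left, Subgroup.relIndex_bot_left, hFp] at h2
    exact h2.symm
  obtain ⟨n, hn⟩ := (IsPGroup.iff_card).mp (hP.to_le hFP)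
  have hcop : Nat.gcd q (Nat.card F) = 1 := by
    rw [hn]
    exact Nat.Coprime.pow_right n ((Nat.coprime_primes hq.out hp.out).mpr hpq.symm)
  have hmod2 : Nat.card F * p ≡ Nat.card F * 1 [MOD q] := by
    rw [← hcard, mul_one]; exact hmod
  have hmod3 : p ≡ 1 [MOD q] := Nat.ModEq.cancel_left_of_coprime hcop hmod2
  exact (Nat.modEq_iff_dvd' hp.out.one_le).mp hmod3.symm

/-- Step of the descent, when the acting element already lies in the subgroup of index `p`. -/
lemma step_aux {X : Type*} [Group X] [Finite X] {p q : ℕ} [hp : Fact p.Prime]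
    [hq : Fact q.Prime] (hpq : p ≠ q) (M : Subgroup X) (hM : M.index = p)
    (P : Sylow p X) (x : X) (hxM : x ∈ M) (hx : x ∈ Subgroup.normalizer (P : Set X))
    (hxq : ∃ k : ℕ, x ^ q ^ k = 1) (hne : ∃ u ∈ P, x * u ≠ u * x) :
    Moves p q M ∨ q ∣ p - 1 := by
  classical
  have hp0 : p ≠ 0 := hp.out.ne_zero
  obtain ⟨D, hD⟩ : ∃ D : Subgroup X, D = (P : Subgroup X) ⊓ M := ⟨_, rfl⟩
  have hDP : D ≤ P := by rw [hD]; exact inf_le_left
  have hDM : D ≤ M := by rw [hD]; exact inf_le_right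
  -- `|P : P ∩ M| = p`
  have hMP : M.relIndex P = p := by
    have hle : M.relIndex (P : Subgroup X) ≤ p := by
      have := Subgroup.relIndex_le_of_le_right (H := M) (K := (P : Subgroup X)) (L := ⊤) le_top
        (by rw [Subgroup.relIndex_top_right, hM]; exact hp0)
      rwa [Subgroup.relIndex_top_right, hM] at this
    obtain ⟨n, hn⟩ := IsPGroup.iff_card.mp P.isPGroup'
    have hdvd : M.relIndex (P : Subgroup X) ∣ p ^ n := by
      rw [← hn]; exact Subgroup.relIndex_dvd_card M P
    obtain ⟨m, hmn, hm⟩ := (Nat.dvd_prime_pow hp.out).mp hdvd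
    have hm1 : m ≤ 1 := by
      by_contra hcon
      have : p ^ 2 ≤ p ^ m := Nat.pow_le_pow_right hp.out.pos (by omega)
      have h3 : p ^ 2 ≤ p := this.trans (by rw [← hm]; exact hle)
      have h4 := hp.out.two_le
      nlinarith
    interval_cases m
    · exfalso
      rw [pow_zero, Subgroup.relIndex_eq_one] at hm
      have : M.index ∣ (P : Subgroup X).index := Subgroup.index_dvd_of_le hm
      rw [hM] at this
      exact P.not_dvd_index this
    · simpa using hm
  have hDrelP : D.relIndex (P : Subgroup X) = p := by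
    rw [hD, inf_comm, Subgroup.inf_relIndex_right, hMP]
  -- `P ∩ M` is a Sylow subgroup of `M`
  have hidx : D.relIndex M = (P : Subgroup X).index := by
    have h1 : D.relIndex (P : Subgroup X) * (P : Subgroup X).index = D.index :=
      Subgroup.relIndex_mul_index hDP
    have h2 : D.relIndex M * M.index = D.index := Subgroup.relIndex_mul_index hDM
    rw [hDrelP] at h1
    rw [hM, ← h1, mul_comm] at h2
    exact Nat.eq_of_mul_eq_mul_left hp.out.pos h2
  by_cases hcent : ∀ d ∈ D, x * d = d * x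
  · right
    have hx' : x ∈ Subgroup.normalizer (((P : Subgroup X)) : Set X) := hx
    have hne' : ∃ u ∈ (P : Subgroup X), x * u ≠ u * x := hne
    exact dvd_of_centralizes_index hpq (P : Subgroup X) D P.isPGroup' hDP hDrelP x hx' hxq
      hcent hne'
  · left
    push Not at hcent
    obtain ⟨d, hd, hdne⟩ := hcent
    have hR : IsPGroup p (D.subgroupOf M) := (P.isPGroup'.to_le hDP).comap_subtype
    have hRi : ¬ p ∣ (D.subgroupOf M).index := by
      have h5 : (D.subgroupOf M).index = D.relIndex M := rfl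
      rw [h5, hidx]; exact P.not_dvd_index
    refine ⟨hR.toSylow hRi, ⟨x, hxM⟩, ?_, ?_, ⟨d, hDM hd⟩, ?_, ?_⟩
    · rw [Subgroup.mem_set_normalizer_iff] at hx ⊢
      intro h
      have := hx h
      simp only [SetLike.mem_coe, IsPGroup.mem_toSylow, Subgroup.mem_subgroupOf] at this ⊢
      rw [hD, Subgroup.mem_inf, Subgroup.mem_inf]
      constructor
      · rintro ⟨h1, h2⟩
        exact ⟨this.mp h1, M.mul_mem (M.mul_mem hxM h2) (M.inv_mem hxM)⟩
      · rintro ⟨h1, h2⟩
        exact ⟨this.mpr h1, h.2⟩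
    · obtain ⟨k, hk⟩ := hxq
      exact ⟨k, by ext; simpa using hk⟩
    · simpa [IsPGroup.mem_toSylow, Subgroup.mem_subgroupOf] using hd
    · intro h
      exact hdne (congrArg Subtype.val h)

/-- Step of the descent. -/
lemma step {X : Type*} [Group X] [Finite X] {p q : ℕ} [hp : Fact p.Prime]
    [hq : Fact q.Prime] (hpq : p ≠ q) (M : Subgroup X) (hM : M.index = p)
    (h : Moves p q X) : Moves p q M ∨ q ∣ p - 1 := by
  classical
  obtain ⟨P, x, hx, ⟨k, hk⟩, u, hu, hne⟩ := h
  have hZ : IsPGroup q (Subgroup.zpowers x) := by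
    rintro ⟨y, hy⟩
    obtain ⟨n, rfl⟩ := Subgroup.mem_zpowers_iff.mp hy
    refine ⟨k, ?_⟩
    ext
    push_cast
    rw [← zpow_natCast, ← zpow_mul, mul_comm, zpow_mul, zpow_natCast, hk, one_zpow]
  have hcard : ¬ q ∣ Nat.card (X ⧸ M) := by
    change ¬ q ∣ M.index
    rw [hM]
    intro h
    exact hpq ((Nat.prime_dvd_prime_iff_eq hq.out hp.out).mp h).symm
  obtain ⟨y, hy⟩ := hZ.nonempty_fixed_point_of_prime_not_dvd_card (X ⧸ M) hcard
  induction y using QuotientGroup.induction_on with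
  | H g =>
  have hg := hy ⟨x, Subgroup.mem_zpowers x⟩
  change ((x * g : X) : X ⧸ M) = ((g : X) : X ⧸ M) at hg
  rw [eq_comm, QuotientGroup.eq] at hg
  have hmemP : ∀ z : X, z ∈ ((g⁻¹ • P : Sylow p X)) ↔ g * z * g⁻¹ ∈ P := by
    intro z
    rw [← SetLike.mem_coe, Sylow.coe_smul]
    rw [Set.mem_smul_set_iff_inv_smul_mem]
    simp [MulAut.smul_def]
  refine step_aux hpq M hM (g⁻¹ • P) (g⁻¹ * (x * g)) hg ?_ ⟨k, ?_⟩ ⟨g⁻¹ * u * g, ?_, ?_⟩
  · rw [Subgroup.mem_set_normalizer_iff] at hx ⊢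
    intro h
    rw [SetLike.mem_coe, SetLike.mem_coe, hmemP, hmemP]
    have := hx (g * h * g⁻¹)
    rw [SetLike.mem_coe, SetLike.mem_coe] at this
    rw [this]
    have e : x * (g * h * g⁻¹) * x⁻¹ = g * (g⁻¹ * (x * g) * h * (g⁻¹ * (x * g))⁻¹) * g⁻¹ := by group
    rw [e]
  · have e : g⁻¹ * (x * g) = g⁻¹ * x * g⁻¹⁻¹ := by group
    rw [e, conj_pow, hk]; group
  · rw [hmemP]
    have e : g * (g⁻¹ * u * g) * g⁻¹ = u := by group
    rwa [e]
  · intro h
    apply hne
    have e1 : g⁻¹ * (x * g) * (g⁻¹ * u * g) = g⁻¹ * (x * u) * g := by group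
    have e2 : g⁻¹ * u * g * (g⁻¹ * (x * g)) = g⁻¹ * (u * x) * g := by group
    rw [e1, e2] at h
    exact mul_left_cancel (mul_right_cancel h)

/-- The subgroup `A U` when `A` and `U` permute. -/
def prodSub {G : Type*} [Group G] (A U : Subgroup G) (h : (A : Set G) * (U : Set G) = U * A) :
    Subgroup G where
  carrier := (A : Set G) * (U : Set G)
  one_mem' := ⟨1, A.one_mem, 1, U.one_mem, one_mul 1⟩
  mul_mem' := by
    rintro _ _ ⟨a, ha, u, hu, rfl⟩ ⟨a', ha', u', hu', rfl⟩
    have h1 : u * a' ∈ (A : Set G) * (U : Set G) := by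
      rw [h]; exact ⟨u, hu, a', ha', rfl⟩
    obtain ⟨a'', ha'', u'', hu'', he⟩ := h1
    refine ⟨a * a'', A.mul_mem ha ha'', u'' * u', U.mul_mem hu'' hu', ?_⟩
    simp only at he ⊢
    calc a * a'' * (u'' * u') = a * (a'' * u'') * u' := by group
      _ = a * u * (a' * u') := by rw [he]; group
  inv_mem' := by
    rintro _ ⟨a, ha, u, hu, rfl⟩
    rw [h]
    exact ⟨u⁻¹, U.inv_mem hu, a⁻¹, A.inv_mem ha, by simp⟩

lemma coe_prodSub {G : Type*} [Group G] (A U : Subgroup G)
    (h : (A : Set G) * (U : Set G) = U * A) :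
    ((prodSub A U h : Subgroup G) : Set G) = (A : Set G) * (U : Set G) := rfl

/-- Descent along a chain of subgroups `A U`, `U ≤ S`, where `S` is a `p`-group. -/
lemma descend {G : Type*} [Group G] [Finite G] {p q : ℕ} [hp : Fact p.Prime]
    [hq : Fact q.Prime] (hpq : p ≠ q) (A : Subgroup G) (n : ℕ) :
    ∀ (S H : Subgroup G), Nat.card S ≤ n → IsPGroup p S →
      (∀ U ≤ S, (A : Set G) * (U : Set G) = U * A) → (H : Set G) = (A : Set G) * (S : Set G) →
      Moves p q H → Moves p q A ∨ (q ∣ p - 1 ∧ ¬ S ≤ A) := by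
  classical
  induction n with
  | zero =>
    intro S H hS
    have : 0 < Nat.card S := Nat.card_pos
    omega
  | succ n ih =>
    intro S H hS hpS hperm hH hmov
    by_cases hSA : S ≤ A
    · left
      have hHA : H = A := by
        apply SetLike.coe_injective
        rw [hH]
        ext z
        constructor
        · rintro ⟨a, ha, s, hs, rfl⟩
          exact A.mul_mem ha (hSA hs)
        · intro hz
          exact ⟨z, hz, 1, S.one_mem, mul_one z⟩
      rw [hHA] at hmov
      exact hmov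
    · -- choose a maximal subgroup of `S` containing `A ∩ S`
      obtain ⟨D, hD⟩ : ∃ D : Subgroup G, D = A ⊓ S := ⟨_, rfl⟩
      have hDS : D ≤ S := by rw [hD]; exact inf_le_right
      obtain ⟨k, hk⟩ := IsPGroup.iff_card.mp hpS
      obtain ⟨l, hl⟩ := IsPGroup.iff_card.mp (hpS.to_le hDS)
      have hlk : l < k := by
        have hlt : Nat.card D < Nat.card S := by
          have hne : D ≠ S := by
            intro h
            apply hSA
            rw [← h, hD]
            exact inf_le_left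
          exact Set.ncard_lt_ncard (Set.ssubset_iff_subset_ne.mpr
            ⟨hDS, fun h => hne (SetLike.coe_injective h)⟩) (Set.toFinite _)
        rw [hk, hl] at hlt
        exact (Nat.pow_lt_pow_iff_right hp.out.one_lt).mp hlt
      obtain ⟨m, rfl⟩ : ∃ m, k = m + 1 := ⟨k - 1, by omega⟩
      have hcardD : Nat.card (D.subgroupOf S) = p ^ l := by
        rw [← hl]
        exact Nat.card_congr (Subgroup.subgroupOfEquivOfLe hDS).toEquiv
      obtain ⟨K, hK, hDK⟩ := Sylow.exists_subgroup_card_pow_prime_le (G := S) p (n := l) (m := m)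
        (by rw [hk]; exact pow_dvd_pow p (Nat.le_succ m)) (D.subgroupOf S) hcardD (by omega)
      obtain ⟨S₁, hS₁⟩ : ∃ S₁ : Subgroup G, S₁ = K.map S.subtype := ⟨_, rfl⟩
      have hS₁S : S₁ ≤ S := by rw [hS₁]; exact Subgroup.map_subtype_le K
      have hDS₁ : D ≤ S₁ := by
        intro d hd
        rw [hS₁]
        exact ⟨⟨d, hDS hd⟩, hDK (Subgroup.mem_subgroupOf.mpr hd), rfl⟩
      have hcardS₁ : Nat.card S₁ = p ^ m := by
        rw [← hK, hS₁]
        exact (Nat.card_congr (K.equivMapOfInjective S.subtype S.subtype_injective).toEquiv).symm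
      have hrel : S₁.relIndex S = p := by
        have h2 := Subgroup.relIndex_mul_relIndex ⊥ S₁ S bot_le hS₁S
        rw [Subgroup.relIndex_bot_left, Subgroup.relIndex_bot_left, hcardS₁, hk, pow_succ] at h2
        exact Nat.eq_of_mul_eq_mul_left (pow_pos hp.out.pos m) h2
      -- the subgroup `M = A S₁`
      have hpermS₁ := hperm S₁ hS₁S
      obtain ⟨M, hM⟩ : ∃ M : Subgroup G, (M : Set G) = (A : Set G) * (S₁ : Set G) :=
        ⟨prodSub A S₁ hpermS₁, rfl⟩
      have hAM : A ≤ M := by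
        intro a ha
        rw [← SetLike.mem_coe, hM]
        exact ⟨a, ha, 1, S₁.one_mem, mul_one a⟩
      have hMH : M ≤ H := by
        intro z hz
        rw [← SetLike.mem_coe, hM] at hz
        rw [← SetLike.mem_coe, hH]
        obtain ⟨a, ha, s, hs, rfl⟩ := hz
        exact ⟨a, ha, s, hS₁S hs, rfl⟩
      have hSH : S ≤ H := by
        intro s hs
        rw [← SetLike.mem_coe, hH]
        exact ⟨1, A.one_mem, s, hs, one_mul s⟩
      have hMS : M ⊓ S = S₁ := by
        apply le_antisymm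
        · rintro y ⟨hyM, hyS⟩
          have hyM' : y ∈ (A : Set G) * (S₁ : Set G) := by rw [← hM]; exact hyM
          obtain ⟨a, ha, s, hs, rfl⟩ := hyM'
          simp only at hyS ⊢
          have haS : a ∈ S := by
            have := S.mul_mem hyS (S.inv_mem (hS₁S hs))
            simpa using this
          have haD : a ∈ D := by rw [hD]; exact ⟨ha, haS⟩
          exact S₁.mul_mem (hDS₁ haD) hs
        · intro s hs
          refine ⟨?_, hS₁S hs⟩
          change s ∈ (M : Set G)
          rw [hM]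
          exact ⟨1, A.one_mem, s, hs, one_mul s⟩
      have hindex : (M.subgroupOf H).index = p := by
        have h1 : ((S.subgroupOf H : Subgroup H) : Set H) * ((M.subgroupOf H : Subgroup H) : Set H)
            = Set.univ := by
          rw [Set.eq_univ_iff_forall]
          rintro ⟨z, hz⟩
          have hz' : z ∈ (S : Set G) * (A : Set G) := by
            rw [← hperm S le_rfl, ← hH]; exact hz
          obtain ⟨s, hs, a, ha, rfl⟩ := hz'
          exact ⟨⟨s, hSH hs⟩, hs, ⟨a, hMH (hAM ha)⟩, hAM ha, rfl⟩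
        rw [index_eq_relIndex _ _ h1, Subgroup.relIndex_subgroupOf hSH,
          ← Subgroup.inf_relIndex_right, hMS, hrel]
      rcases step hpq (M.subgroupOf H) hindex hmov with h | h
      · have hmovM : Moves p q M := h.of_equiv (Subgroup.subgroupOfEquivOfLe hMH)
        have hcard : Nat.card S₁ ≤ n := by
          rw [hcardS₁]
          rw [hk] at hS
          have : p ^ m < p ^ (m + 1) := Nat.pow_lt_pow_right hp.out.one_lt (Nat.lt_succ_self m)
          omega
        rcases ih S₁ M hcard (hpS.to_le hS₁S) (fun U hU => hperm U (hU.trans hS₁S)) hM hmovM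
          with h' | ⟨h', _⟩
        · exact Or.inl h'
        · exact Or.inr ⟨h', hSA⟩
      · exact Or.inr ⟨h, hSA⟩

/-- `Moves` can be read off from any Sylow `p`-subgroup. -/
lemma Moves.forall_sylow {X : Type*} [Group X] [Finite X] {p q : ℕ} [hp : Fact p.Prime]
    (h : Moves p q X) (R : Sylow p X) :
    ∃ x ∈ Subgroup.normalizer (R : Set X), (∃ k : ℕ, x ^ q ^ k = 1) ∧
    ∃ u ∈ R, x * u ≠ u * x := by
  obtain ⟨P, x, hx, ⟨k, hk⟩, u, hu, hne⟩ := h
  obtain ⟨g, hg⟩ := MulAction.exists_smul_eq X P R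
  have hmemR : ∀ z : X, z ∈ R ↔ g⁻¹ * z * g ∈ P := by
    intro z
    rw [← hg, ← SetLike.mem_coe, Sylow.coe_smul, Set.mem_smul_set_iff_inv_smul_mem]
    simp [MulAut.smul_def]
  refine ⟨g * x * g⁻¹, ?_, ⟨k, ?_⟩, g * u * g⁻¹, ?_, ?_⟩
  · rw [Subgroup.mem_set_normalizer_iff] at hx ⊢
    intro h
    rw [SetLike.mem_coe, SetLike.mem_coe, hmemR, hmemR]
    have := hx (g⁻¹ * h * g)
    rw [SetLike.mem_coe, SetLike.mem_coe] at this
    rw [this]
    have e : x * (g⁻¹ * h * g) * x⁻¹ = g⁻¹ * (g * x * g⁻¹ * h * (g * x * g⁻¹)⁻¹) * g := by group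
    rw [e]
  · rw [conj_pow, hk]; group
  · rw [hmemR]
    have e : g⁻¹ * (g * u * g⁻¹) * g = u := by group
    rwa [e]
  · intro h
    apply hne
    have e1 : g * x * g⁻¹ * (g * u * g⁻¹) = g * (x * u) * g⁻¹ := by group
    have e2 : g * u * g⁻¹ * (g * x * g⁻¹) = g * (u * x) * g⁻¹ := by group
    rw [e1, e2] at h
    exact mul_left_cancel (mul_right_cancel h)

/-- A subgroup of index prime to `p` contains a Sylow `p`-subgroup. -/
lemma exists_sylow_le {G : Type*} [Group G] [Finite G] {p : ℕ} [hp : Fact p.Prime]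
    (H : Subgroup G) (h : ¬ p ∣ H.index) : ∃ P : Sylow p G, (P : Subgroup G) ≤ H := by
  obtain ⟨Q⟩ : Nonempty (Sylow p H) := inferInstance
  have h1 : IsPGroup p ((Q : Subgroup H).map H.subtype) := Q.isPGroup'.map H.subtype
  have h2 : ¬ p ∣ ((Q : Subgroup H).map H.subtype).index := by
    rw [Subgroup.index_map_subtype]
    intro h3
    rcases (hp.out.dvd_mul).mp h3 with h4 | h4
    · exact Q.not_dvd_index h4
    · exact h h4
  exact ⟨h1.toSylow h2, Subgroup.map_subtype_le _⟩

/-- If `G = G₀ G₁` and both factors have index prime to `p`, some Sylow `p`-subgroup of `G` lies in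
both factors. -/
lemma exists_common_sylow {G : Type*} [Group G] [Finite G] {p : ℕ} [hp : Fact p.Prime]
    (G₀ G₁ : Subgroup G) (hG : (G₀ : Set G) * (G₁ : Set G) = Set.univ)
    (h₀ : ¬ p ∣ G₀.index) (h₁ : ¬ p ∣ G₁.index) :
    ∃ P : Sylow p G, (P : Subgroup G) ≤ G₀ ∧ (P : Subgroup G) ≤ G₁ := by
  obtain ⟨P₀, hP₀⟩ := exists_sylow_le G₀ h₀
  obtain ⟨P₁, hP₁⟩ := exists_sylow_le G₁ h₁
  obtain ⟨g, hg⟩ := MulAction.exists_smul_eq G P₀ P₁
  have hginv : g⁻¹ ∈ (G₀ : Set G) * (G₁ : Set G) := by rw [hG]; trivial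
  obtain ⟨a, ha, b, hb, hab⟩ := hginv
  simp only at hab
  have hge : g = b⁻¹ * a⁻¹ := by
    rw [← mul_inv_rev, hab, inv_inv]
  refine ⟨a⁻¹ • P₀, ?_, ?_⟩
  · exact Sylow.smul_le hP₀ ⟨a⁻¹, G₀.inv_mem ha⟩
  · have h2 : a⁻¹ • P₀ = b • P₁ := by
      rw [← hg, hge, smul_smul]
      simp
    rw [h2]
    exact Sylow.smul_le hP₁ ⟨b, hb⟩

/-- If `G = G₀ G₁` and the Sylow subgroup `R` of `G` lies in both factors, then
`N_G(R) = N_{G₀}(R) N_{G₁}(R)`. -/
lemma normalizer_factor {G : Type*} [Group G] [Finite G] {p : ℕ} [hp : Fact p.Prime]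
    (G₀ G₁ : Subgroup G) (hG : (G₀ : Set G) * (G₁ : Set G) = Set.univ) (R : Sylow p G)
    (h₀ : (R : Subgroup G) ≤ G₀) (h₁ : (R : Subgroup G) ≤ G₁) (g : G)
    (hg : g ∈ Subgroup.normalizer (R : Set G)) :
    ∃ a ∈ G₀, ∃ b ∈ G₁, a ∈ Subgroup.normalizer (R : Set G) ∧
      b ∈ Subgroup.normalizer (R : Set G) ∧ a * b = g := by
  have hg' : g ∈ (G₀ : Set G) * (G₁ : Set G) := by rw [hG]; trivial
  obtain ⟨a, ha, b, hb, hab⟩ := hg'
  simp only at hab
  -- `a⁻¹ R a = b R b⁻¹` is another Sylow subgroup contained in `G₀ ∩ G₁`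
  have hR : a⁻¹ • R = b • R := by
    have h2 : g • R = R := Sylow.smul_eq_iff_mem_normalizer.mpr hg
    rw [← hab, mul_smul] at h2
    rw [eq_comm, eq_inv_smul_iff]
    exact h2
  have hI : (R : Subgroup G) ≤ G₀ ⊓ G₁ := le_inf h₀ h₁
  have hI' : ((a⁻¹ • R : Sylow p G) : Subgroup G) ≤ G₀ ⊓ G₁ := by
    refine le_inf (Sylow.smul_le h₀ ⟨a⁻¹, G₀.inv_mem ha⟩) ?_
    rw [hR]
    exact Sylow.smul_le h₁ ⟨b, hb⟩
  obtain ⟨t, ht⟩ := MulAction.exists_smul_eq (G₀ ⊓ G₁ : Subgroup G)
    ((a⁻¹ • R).subtype hI') (R.subtype hI)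
  rw [Sylow.smul_subtype] at ht
  have ht2 : t • (a⁻¹ • R) = R := Sylow.subtype_injective ht
  have ht3 : ((t : G) * a⁻¹) • R = R := by
    rw [mul_smul]; exact ht2
  have hn : (t : G) * a⁻¹ ∈ Subgroup.normalizer (R : Set G) :=
    Sylow.smul_eq_iff_mem_normalizer.mp ht3
  have hn1 : a * (t : G)⁻¹ ∈ Subgroup.normalizer (R : Set G) := by
    have := Subgroup.inv_mem _ hn
    simpa using this
  have htm := t.2
  rw [Subgroup.mem_inf] at htm
  refine ⟨a * (t : G)⁻¹, G₀.mul_mem ha (G₀.inv_mem htm.1), (t : G) * b,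
    G₁.mul_mem htm.2 hb, hn1, ?_, ?_⟩
  · have h4 := Subgroup.mul_mem _ hn hg
    rw [← hab] at h4
    simpa [mul_assoc] using h4
  · rw [← hab]; group

/-- If an element of `N_G(R) ∩ H` induces an automorphism of `R` of order `q`, then `H` moves. -/
lemma moves_of_dvd {G : Type*} [Group G] [Finite G] {p q : ℕ}
    [hq : Fact q.Prime] (R : Sylow p G) (H : Subgroup G) (hRH : (R : Subgroup G) ≤ H)
    (h : q ∣ Nat.card ((H.subgroupOf (Subgroup.normalizer (R : Set G))).map
      ((R : Subgroup G).normalizerMonoidHom))) : Moves p q H := by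
  classical
  obtain ⟨φ, hφ⟩ : ∃ φ : Subgroup.normalizer (R : Set G) →* MulAut (R : Subgroup G),
    φ = (R : Subgroup G).normalizerMonoidHom := ⟨_, rfl⟩
  change q ∣ Nat.card ((H.subgroupOf (Subgroup.normalizer (R : Set G))).map
      ((R : Subgroup G).normalizerMonoidHom)) at h
  rw [← hφ] at h
  obtain ⟨w, hord'⟩ := exists_prime_orderOf_dvd_card' q h
  obtain ⟨y, hy, hyw⟩ := w.2
  have hord : orderOf (φ y) = q := by
    rw [hyw, Subgroup.orderOf_coe, hord']
  -- the `q`-part of `y`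
  have hy0 : orderOf y ≠ 0 := (orderOf_pos y).ne'
  obtain ⟨e, m, hm, hem⟩ := Nat.exists_eq_pow_mul_and_not_dvd hy0 q hq.out.ne_one
  have hxq : (y ^ m) ^ q ^ e = 1 := by
    rw [← pow_mul, mul_comm, ← hem, pow_orderOf_eq_one]
  have hφx : φ (y ^ m) ≠ 1 := by
    intro h1
    rw [map_pow] at h1
    have := orderOf_dvd_of_pow_eq_one h1
    rw [hord] at this
    exact hm this
  have hex : ∃ u : (R : Subgroup G), φ (y ^ m) u ≠ u := by
    by_contra hcon
    push Not at hcon
    exact hφx (MulEquiv.ext hcon)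
  obtain ⟨u, hu⟩ := hex
  have hyH : ((y ^ m : Subgroup.normalizer (R : Set G)) : G) ∈ H := by
    have : y ^ m ∈ H.subgroupOf (Subgroup.normalizer (R : Set G)) := Subgroup.pow_mem _ hy m
    exact this
  refine ⟨R.subtype hRH, ⟨_, hyH⟩, ?_, ⟨e, ?_⟩, ⟨u, hRH u.2⟩, ?_, ?_⟩
  · have hn := (y ^ m).2
    rw [Subgroup.mem_set_normalizer_iff] at hn ⊢
    intro w
    exact hn w
  · apply Subtype.ext
    have := congrArg Subtype.val hxq
    simpa using this
  · exact u.2
  · intro hcomm
    apply hu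
    have h1 : ((y ^ m : Subgroup.normalizer (R : Set G)) : G) * (u : G)
      = (u : G) * ((y ^ m : Subgroup.normalizer (R : Set G)) : G) := congrArg Subtype.val hcomm
    apply Subtype.ext
    have h2 : ((φ (y ^ m) u : (R : Subgroup G)) : G) =
        ((y ^ m : Subgroup.normalizer (R : Set G)) : G) * (u : G) *
        ((y ^ m : Subgroup.normalizer (R : Set G)) : G)⁻¹ := by
      rw [hφ]; rfl
    rw [h2, h1]
    group

/-- Passage to the factors `G₀ = A B_p` and `G₁ = B A_p`. -/
lemma moves_factor {G : Type*} [Group G] [Finite G] {p q : ℕ} [hp : Fact p.Prime]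
    [hq : Fact q.Prime] (G₀ G₁ : Subgroup G) (hG : (G₀ : Set G) * (G₁ : Set G) = Set.univ)
    (h₀ : ¬ p ∣ G₀.index) (h₁ : ¬ p ∣ G₁.index) (h : Moves p q G) :
    Moves p q G₀ ∨ Moves p q G₁ := by
  classical
  obtain ⟨R, hR₀, hR₁⟩ := exists_common_sylow G₀ G₁ hG h₀ h₁
  obtain ⟨x, hx, ⟨k, hk⟩, u, hu, hne⟩ := h.forall_sylow R
  obtain ⟨φ, hφ⟩ : ∃ φ : Subgroup.normalizer (R : Set G) →* MulAut (R : Subgroup G),
    φ = (R : Subgroup G).normalizerMonoidHom := ⟨_, rfl⟩
  set N₀ := G₀.subgroupOf (Subgroup.normalizer (R : Set G)) with hN₀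
  set N₁ := G₁.subgroupOf (Subgroup.normalizer (R : Set G)) with hN₁
  -- `q` divides the order of the image of the normaliser
  have hqY : q ∣ Nat.card φ.range := by
    have hne1 : φ ⟨x, hx⟩ ≠ 1 := by
      intro h1
      apply hne
      have h2 : φ ⟨x, hx⟩ ⟨u, hu⟩ = ⟨u, hu⟩ := by rw [h1]; rfl
      have h3 : x * u * x⁻¹ = u := by
        have := congrArg (Subtype.val) h2
        rw [hφ] at this
        exact this
      exact mul_inv_eq_iff_eq_mul.mp h3
    have hpow : (φ ⟨x, hx⟩) ^ q ^ k = 1 := by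
      rw [← map_pow]
      have : (⟨x, hx⟩ : Subgroup.normalizer (R : Set G)) ^ q ^ k = 1 := by
        apply Subtype.ext
        simpa using hk
      rw [this, map_one]
    have hd : orderOf (φ ⟨x, hx⟩) ∣ q ^ k := orderOf_dvd_of_pow_eq_one hpow
    have hq1 : q ∣ orderOf (φ ⟨x, hx⟩) := by
      obtain ⟨j, hj, hj2⟩ := (Nat.dvd_prime_pow hq.out).mp hd
      rw [hj2]
      refine dvd_pow_self q ?_
      rintro rfl
      rw [pow_zero, orderOf_eq_one_iff] at hj2
      exact hne1 hj2
    refine hq1.trans ?_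
    have : orderOf (φ ⟨x, hx⟩) = orderOf (φ.rangeRestrict ⟨x, hx⟩) := by
      rw [← Subgroup.orderOf_coe]; rfl
    rw [this]
    exact orderOf_dvd_natCard _
  -- the image of the normaliser is the product of the two images
  have hprod : ((N₀.map φ.rangeRestrict : Subgroup φ.range) : Set φ.range) *
      ((N₁.map φ.rangeRestrict : Subgroup φ.range) : Set φ.range) = Set.univ := by
    rw [Set.eq_univ_iff_forall]
    rintro ⟨_, ⟨g, rfl⟩⟩
    obtain ⟨a, ha, b, hb, han, hbn, hab⟩ := normalizer_factor G₀ G₁ hG R hR₀ hR₁ g g.2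
    refine ⟨φ.rangeRestrict ⟨a, han⟩, ⟨⟨a, han⟩, ha, rfl⟩, φ.rangeRestrict ⟨b, hbn⟩,
      ⟨⟨b, hbn⟩, hb, rfl⟩, ?_⟩
    simp only
    rw [← map_mul]
    have : (⟨a, han⟩ * ⟨b, hbn⟩ : Subgroup.normalizer (R : Set G)) = g := Subtype.ext hab
    rw [this]
    rfl
  have hcard : Nat.card φ.range ∣
      Nat.card (N₁.map φ.rangeRestrict) * Nat.card (N₀.map φ.rangeRestrict) := by
    rw [← Subgroup.card_mul_index (N₁.map φ.rangeRestrict), index_eq_relIndex _ _ hprod]
    exact mul_dvd_mul_left _ (Subgroup.relIndex_dvd_card _ _)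
  have hmapcard : ∀ N : Subgroup (Subgroup.normalizer (R : Set G)),
      Nat.card (N.map φ.rangeRestrict) = Nat.card (N.map φ) := by
    intro N
    have : (N.map φ.rangeRestrict).map φ.range.subtype = N.map φ := by
      rw [Subgroup.map_map]; rfl
    rw [← this]
    exact (Nat.card_congr ((N.map φ.rangeRestrict).equivMapOfInjective φ.range.subtype
      φ.range.subtype_injective).toEquiv)
  rw [hmapcard, hmapcard] at hcard
  rcases (hq.out.dvd_mul).mp (hqY.trans hcard) with h2 | h2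
  · right
    rw [hφ] at h2
    exact moves_of_dvd R G₁ hR₁ h2
  · left
    rw [hφ] at h2
    exact moves_of_dvd R G₀ hR₀ h2

lemma Moves.dvd_card {X : Type*} [Group X] [Finite X] {p q : ℕ} [hq : Fact q.Prime]
    (h : Moves p q X) : q ∣ Nat.card X := by
  obtain ⟨P, x, hx, ⟨k, hk⟩, u, hu, hne⟩ := h
  have hx1 : x ≠ 1 := by
    rintro rfl
    exact hne (by simp)
  obtain ⟨j, hj, hj2⟩ := (Nat.dvd_prime_pow hq.out).mp (orderOf_dvd_of_pow_eq_one hk)
  have : q ∣ orderOf x := by
    rw [hj2]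
    refine dvd_pow_self q ?_
    rintro rfl
    rw [pow_zero, orderOf_eq_one_iff] at hj2
    exact hx1 hj2
  exact this.trans (orderOf_dvd_natCard x)

lemma Moves.dvd_card_left {X : Type*} [Group X] [Finite X] {p q : ℕ} [hp : Fact p.Prime]
    (h : Moves p q X) : p ∣ Nat.card X := by
  obtain ⟨P, x, hx, -, u, hu, hne⟩ := h
  have hu1 : (⟨u, hu⟩ : (P : Subgroup X)) ≠ 1 := by
    intro h
    have : u = 1 := congrArg Subtype.val h
    subst this
    exact hne (by simp)
  exact ((P.isPGroup'.dvd_orderOf hu1).trans (orderOf_dvd_natCard _)).trans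
    (Subgroup.card_subgroup_dvd_card (P : Subgroup X))

/-- From the index condition of the Sylow graph to `Moves`. -/
lemma moves_of_edge {X : Type*} [Group X] [Finite X] {p q : ℕ} [Fact p.Prime]
    [hq : Fact q.Prime] (P : Sylow p X) (h : q ∣ autoOrder (P : Subgroup X)) :
    p ≠ q ∧ Moves p q X := by
  classical
  obtain ⟨N, hN⟩ : ∃ N : Subgroup X, N = Subgroup.normalizer ((P : Subgroup X) : Set X) := ⟨_, rfl⟩
  have hPN : (P : Subgroup X) ≤ N := by rw [hN]; exact Subgroup.le_normalizer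
  have h' : q ∣ (((P : Subgroup X) ⊔ Subgroup.centralizer ((P : Subgroup X) : Set X)).subgroupOf
      N).index := by
    rw [hN]; exact h
  constructor
  · rintro rfl
    have h1 : (((P : Subgroup X) ⊔ Subgroup.centralizer ((P : Subgroup X) : Set X)).subgroupOf
      N).index ∣ ((P : Subgroup X).subgroupOf N).index :=
      Subgroup.index_dvd_of_le (Subgroup.comap_mono le_sup_left)
    have h2 : ((P : Subgroup X).subgroupOf N).index ∣ (P : Subgroup X).index :=
      Subgroup.relIndex_dvd_index_of_le hPN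
    exact P.not_dvd_index ((h'.trans h1).trans h2)
  · obtain ⟨Q⟩ : Nonempty (Sylow q N) := inferInstance
    have hQ : ¬ (Q : Subgroup N) ≤ ((P : Subgroup X) ⊔
        Subgroup.centralizer ((P : Subgroup X) : Set X)).subgroupOf N := by
      intro hle
      exact Q.not_dvd_index (h'.trans (Subgroup.index_dvd_of_le hle))
    obtain ⟨x, hxQ, hx⟩ := SetLike.not_le_iff_exists.mp hQ
    have hxc : (x : X) ∉ Subgroup.centralizer ((P : Subgroup X) : Set X) := by
      intro hc
      apply hx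
      rw [Subgroup.mem_subgroupOf]
      exact (le_sup_right : Subgroup.centralizer ((P : Subgroup X) : Set X) ≤ _) hc
    obtain ⟨k, hk⟩ := Q.isPGroup' ⟨x, hxQ⟩
    have hk' : (x : X) ^ q ^ k = 1 := by
      have := congrArg (fun y : (Q : Subgroup N) => ((y : N) : X)) hk
      simpa using this
    rw [Subgroup.mem_centralizer_iff] at hxc
    push Not at hxc
    obtain ⟨u, hu, hne⟩ := hxc
    refine ⟨P, x, ?_, ⟨k, hk'⟩, u, hu, fun h => hne h.symm⟩
    exact hN.le x.2

/-- From `Moves` to the index condition of the Sylow graph. -/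
lemma edge_of_moves {X : Type*} [Group X] [Finite X] {p q : ℕ} [hp : Fact p.Prime]
    [hq : Fact q.Prime] (hpq : p ≠ q) (h : Moves p q X) :
    ∃ P : Sylow p X, q ∣ autoOrder (P : Subgroup X) := by
  classical
  obtain ⟨P, x, hx, ⟨k, hk⟩, u, hu, hne⟩ := h
  refine ⟨P, ?_⟩
  obtain ⟨N, hN⟩ : ∃ N : Subgroup X, N = Subgroup.normalizer ((P : Subgroup X) : Set X) := ⟨_, rfl⟩
  have hPN : (P : Subgroup X) ≤ N := by rw [hN]; exact Subgroup.le_normalizer
  have hCN : Subgroup.centralizer ((P : Subgroup X) : Set X) ≤ N := by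
    rw [hN]
    intro c hc
    rw [Subgroup.mem_centralizer_iff] at hc
    rw [Subgroup.mem_set_normalizer_iff]
    intro y
    constructor
    · intro hy
      have := hc y hy
      rw [← this]
      simpa using hy
    · intro hy
      have h1 := hc _ hy
      have h2 : c * y * c⁻¹ = y := by
        have h3 : c * y = c * (c * y * c⁻¹) := by rw [← h1]; group
        exact (mul_left_cancel h3).symm
      rwa [h2] at hy
  have hgoal : q ∣ (((P : Subgroup X) ⊔ Subgroup.centralizer ((P : Subgroup X) : Set X)).subgroupOf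
      N).index := by
    rw [Subgroup.subgroupOf_sup hPN hCN]
    have hPnorm : ((P : Subgroup X).subgroupOf N).Normal := by
      rw [hN]; infer_instance
    have hCnorm : ((Subgroup.centralizer ((P : Subgroup X) : Set X)).subgroupOf N).Normal := by
      constructor
      intro c hc n
      rw [Subgroup.mem_subgroupOf, Subgroup.mem_centralizer_iff] at hc ⊢
      intro y hy
      have hn := hN.le n.2
      rw [Subgroup.mem_set_normalizer_iff''] at hn
      have h1 := hc _ ((hn y).mp hy)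
      push_cast
      calc y * ((n : X) * c * (n : X)⁻¹) = n * (((n : X)⁻¹ * y * n) * c) * (n : X)⁻¹ := by group
        _ = n * (c * ((n : X)⁻¹ * y * n)) * (n : X)⁻¹ := by rw [h1]
        _ = (n : X) * c * (n : X)⁻¹ * y := by group
    have hsup : ((P : Subgroup X).subgroupOf N ⊔
      (Subgroup.centralizer ((P : Subgroup X) : Set X)).subgroupOf N).Normal := inferInstance
    by_contra hcon
    have hxN : x ∈ N := by rw [hN]; exact hx
    -- the image of `x` in the quotient is trivial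
    have hxin : (⟨x, hxN⟩ : N) ∈ ((P : Subgroup X).subgroupOf N ⊔
      (Subgroup.centralizer ((P : Subgroup X) : Set X)).subgroupOf N) := by
      rw [← QuotientGroup.eq_one_iff]
      have hpow : (((⟨x, hxN⟩ : N) : N ⧸ ((P : Subgroup X).subgroupOf N ⊔
        (Subgroup.centralizer ((P : Subgroup X) : Set X)).subgroupOf N))) ^ q ^ k = 1 := by
        rw [← QuotientGroup.mk_pow]
        have : (⟨x, hxN⟩ : N) ^ q ^ k = 1 := by
          apply Subtype.ext
          simpa using hk
        rw [this]; rfl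
      obtain ⟨j, hj, hj2⟩ := (Nat.dvd_prime_pow hq.out).mp (orderOf_dvd_of_pow_eq_one hpow)
      rcases Nat.eq_zero_or_pos j with h0 | h0
      · rw [h0, pow_zero, orderOf_eq_one_iff] at hj2
        exact hj2
      · exfalso
        apply hcon
        have h5 : q ∣ orderOf (((⟨x, hxN⟩ : N) : N ⧸ ((P : Subgroup X).subgroupOf N ⊔
          (Subgroup.centralizer ((P : Subgroup X) : Set X)).subgroupOf N))) := by
          rw [hj2]; exact dvd_pow_self q h0.ne'
        exact h5.trans (orderOf_dvd_natCard _)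
    rw [Subgroup.mem_sup_of_normal_right] at hxin
    obtain ⟨y, hy, z, hz, hyz⟩ := hxin
    have hyz' : (y : X) * (z : X) = x := congrArg Subtype.val hyz
    rw [Subgroup.mem_subgroupOf] at hy hz
    have hcomm : Commute (y : X) (z : X) := (Subgroup.mem_centralizer_iff.mp hz) y hy
    have hpow : (y : X) ^ q ^ k * (z : X) ^ q ^ k = 1 := by
      rw [← hcomm.mul_pow, hyz', hk]
    have hyc : (y : X) ^ q ^ k ∈ Subgroup.centralizer ((P : Subgroup X) : Set X) := by
      rw [mul_eq_one_iff_eq_inv] at hpow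
      rw [hpow]
      exact Subgroup.inv_mem _ (Subgroup.pow_mem _ hz _)
    have hcop : Nat.Coprime (q ^ k) (orderOf (y : X)) := by
      obtain ⟨m, hm⟩ := IsPGroup.iff_orderOf.mp P.isPGroup' ⟨y, hy⟩
      rw [← Subgroup.orderOf_coe] at hm
      change orderOf (y : X) = p ^ m at hm
      rw [hm]
      exact Nat.Coprime.pow _ _ ((Nat.coprime_primes hq.out hp.out).mpr hpq.symm)
    obtain ⟨m, hm⟩ := exists_pow_eq_self_of_coprime hcop
    have hyc' : (y : X) ∈ Subgroup.centralizer ((P : Subgroup X) : Set X) := by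
      rw [← hm]; exact Subgroup.pow_mem _ hyc _
    have hxc : x ∈ Subgroup.centralizer ((P : Subgroup X) : Set X) := by
      rw [← hyz']; exact Subgroup.mul_mem _ hyc' hz
    exact hne ((Subgroup.mem_centralizer_iff.mp hxc) u hu).symm
  rw [hN] at hgoal
  exact hgoal

/-- One half of the final argument: the factor `G₀ = A S` with `S` a Sylow `p`-subgroup of `B`. -/
lemma half {G : Type*} [Group G] [Finite G] {p q : ℕ} [hp : Fact p.Prime]
    [hq : Fact q.Prime] (hpq : p ≠ q) (A B S G₀ : Subgroup G) (hSB : S ≤ B) (hS : IsPGroup p S)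
    (hperm : ∀ U ≤ B, (A : Set G) * (U : Set G) = U * A) (hG₀ : (G₀ : Set G) = (A : Set G) * S)
    (h : Moves p q G₀) :
    Moves p q A ∨ (q ∣ p - 1 ∧ p ∣ Nat.card B ∧ q ∣ Nat.card A) := by
  classical
  rcases descend hpq A (Nat.card S) S G₀ le_rfl hS (fun U hU => hperm U (hU.trans hSB)) hG₀ h
    with h1 | ⟨h1, h2⟩
  · exact Or.inl h1
  · right
    refine ⟨h1, ?_, ?_⟩
    · -- `S` is a nontrivial `p`-subgroup of `B`
      have h3 : Nat.card S = 1 ∨ p ∣ Nat.card S := hS.card_eq_or_dvd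
      rcases h3 with h3 | h3
      · exfalso
        apply h2
        rw [Subgroup.card_eq_one] at h3
        rw [h3]; exact bot_le
      · exact h3.trans (Subgroup.card_dvd_of_le hSB)
    · -- `|G₀ : A|` is a power of `p`
      have hAG : A ≤ G₀ := by
        intro a ha
        rw [← SetLike.mem_coe, hG₀]
        exact ⟨a, ha, 1, S.one_mem, mul_one a⟩
      have hSG : S ≤ G₀ := by
        intro a ha
        rw [← SetLike.mem_coe, hG₀]
        exact ⟨1, A.one_mem, a, ha, one_mul a⟩
      have h4 : ((S.subgroupOf G₀ : Subgroup G₀) : Set G₀) *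
          ((A.subgroupOf G₀ : Subgroup G₀) : Set G₀) = Set.univ := by
        rw [Set.eq_univ_iff_forall]
        rintro ⟨z, hz⟩
        have hz' : z ∈ (S : Set G) * (A : Set G) := by
          rw [← hperm S hSB, ← hG₀]; exact hz
        obtain ⟨s, hs, a, ha, rfl⟩ := hz'
        exact ⟨⟨s, hSG hs⟩, hs, ⟨a, hAG ha⟩, ha, rfl⟩
      have h5 : A.relIndex G₀ = A.relIndex S := by
        have := index_eq_relIndex _ _ h4
        rwa [Subgroup.relIndex_subgroupOf hSG] at this
      have h6 : A.relIndex S ∣ Nat.card S := Subgroup.relIndex_dvd_card A S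
      obtain ⟨n, hn⟩ := IsPGroup.iff_card.mp hS
      have h7 : q ∣ Nat.card G₀ := h.dvd_card
      have h8 : Nat.card A * A.relIndex G₀ = Nat.card G₀ := by
        have h9 := Subgroup.relIndex_mul_relIndex ⊥ A G₀ bot_le hAG
        rwa [Subgroup.relIndex_bot_left, Subgroup.relIndex_bot_left] at h9
      rw [← h8] at h7
      rcases (hq.out.dvd_mul).mp h7 with h9 | h9
      · exact h9
      · exfalso
        rw [h5] at h9
        have h10 : q ∣ p ^ n := by rw [← hn]; exact h9.trans h6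
        exact hpq ((Nat.prime_dvd_prime_iff_eq hq.out hp.out).mp
          (hq.out.dvd_of_dvd_pow h10)).symm

/-- If `G = A B`, `S ≤ B` has index prime to `p` in `B` and `A ∪ S ⊆ G₀`, then `|G : G₀|` is prime
to `p`. -/
lemma index_not_dvd {G : Type*} [Group G] {p : ℕ} (A B S G₀ : Subgroup G)
    (hAB : (A : Set G) * (B : Set G) = Set.univ) (hA : A ≤ G₀) (hS : S ≤ G₀)
    (hSi : ¬ p ∣ S.relIndex B) : ¬ p ∣ G₀.index := by
  have h1 : (B : Set G) * (G₀ : Set G) = Set.univ := by
    rw [Set.eq_univ_iff_forall]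
    intro z
    have hz : z⁻¹ ∈ (A : Set G) * (B : Set G) := by rw [hAB]; trivial
    obtain ⟨a, ha, b, hb, hab⟩ := hz
    simp only at hab
    refine ⟨b⁻¹, B.inv_mem hb, a⁻¹, hA (A.inv_mem ha), ?_⟩
    simp only
    rw [← mul_inv_rev, hab, inv_inv]
  rw [index_eq_relIndex _ _ h1]
  intro h
  exact hSi (h.trans (Subgroup.relIndex_dvd_of_le_left B hS))

/-- A Sylow `p`-subgroup of `B`, viewed in `G`. -/
lemma exists_sylow_in {G : Type*} [Group G] [Finite G] {p : ℕ} [hp : Fact p.Prime]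
    (B : Subgroup G) : ∃ S : Subgroup G, S ≤ B ∧ IsPGroup p S ∧ ¬ p ∣ S.relIndex B := by
  obtain ⟨Q⟩ : Nonempty (Sylow p B) := inferInstance
  refine ⟨(Q : Subgroup B).map B.subtype, Subgroup.map_subtype_le _, Q.isPGroup'.map B.subtype, ?_⟩
  have : ((Q : Subgroup B).map B.subtype).subgroupOf B = Q := by
    rw [Subgroup.subgroupOf, Subgroup.comap_map_eq_self_of_injective B.subtype_injective]
  rw [Subgroup.relIndex, this]
  exact Q.not_dvd_index

/-- **Main theorem.** If the finite group `G = AB` is a mutually permutable product of `A` and `B`,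
then `Γ_s(G) ⊆ Γ_s(A) ∪ Γ_s(B) ∪ Γ(A, B)`: every vertex of `Γ_s(G)` is a vertex of `Γ_s(A)` or of
`Γ_s(B)`, and every edge of `Γ_s(G)` is an edge of `Γ_s(A)`, an edge of `Γ_s(B)`, or an element of
`Γ(A, B)`. -/
theorem result {G : Type*} [Group G] [Finite G] (A B : Subgroup G)
    (h : IsMutuallyPermutableProduct A B) :
    (sylowGraph G).V ⊆ (sylowGraph A).V ∪ (sylowGraph B).V ∧
    (sylowGraph G).E ⊆ (sylowGraph A).E ∪ (sylowGraph B).E ∪ crossEdges A B := by
  classical
  constructor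
  · rintro p ⟨hp, hpG⟩
    have : Fact p.Prime := ⟨hp⟩
    by_contra hcon
    rw [Set.mem_union, not_or] at hcon
    have hA : ¬ p ∣ Nat.card A := fun h' => hcon.1 ⟨hp, h'⟩
    have hB : ¬ p ∣ Nat.card B := fun h' => hcon.2 ⟨hp, h'⟩
    have h1 : (B : Set G) * (A : Set G) = Set.univ := by
      rw [h.right A le_rfl |>.trans h.mul_eq]
    have h2 := index_eq_relIndex B A h1
    rw [← Subgroup.card_mul_index A, h2] at hpG
    rcases (hp.dvd_mul).mp hpG with h3 | h3
    · exact hA h3
    · exact hB (h3.trans (Subgroup.relIndex_dvd_card A B))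
  · rintro ⟨p, q⟩ ⟨⟨hp, hpG⟩, ⟨-, hqG⟩, P, hq, hPq⟩
    simp only at hp hq hpG hqG hPq P
    have : Fact p.Prime := ⟨hp⟩
    have : Fact q.Prime := ⟨hq⟩
    obtain ⟨hpq, hmov⟩ := moves_of_edge P hPq
    have hBA : (B : Set G) * (A : Set G) = Set.univ := (h.right A le_rfl).trans h.mul_eq
    obtain ⟨S, hSB, hS, hSi⟩ := exists_sylow_in (p := p) B
    obtain ⟨R, hRA, hR, hRi⟩ := exists_sylow_in (p := p) A
    obtain ⟨G₀, hG₀⟩ : ∃ G₀ : Subgroup G, (G₀ : Set G) = (A : Set G) * (S : Set G) :=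
      ⟨prodSub A S (h.left S hSB), rfl⟩
    obtain ⟨G₁, hG₁⟩ : ∃ G₁ : Subgroup G, (G₁ : Set G) = (B : Set G) * (R : Set G) :=
      ⟨prodSub B R (h.right R hRA), rfl⟩
    have hAG₀ : A ≤ G₀ := by
      intro a ha
      rw [← SetLike.mem_coe, hG₀]
      exact ⟨a, ha, 1, S.one_mem, mul_one a⟩
    have hSG₀ : S ≤ G₀ := by
      intro a ha
      rw [← SetLike.mem_coe, hG₀]
      exact ⟨1, A.one_mem, a, ha, one_mul a⟩
    have hBG₁ : B ≤ G₁ := by
      intro a ha
      rw [← SetLike.mem_coe, hG₁]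
      exact ⟨a, ha, 1, R.one_mem, mul_one a⟩
    have hRG₁ : R ≤ G₁ := by
      intro a ha
      rw [← SetLike.mem_coe, hG₁]
      exact ⟨1, B.one_mem, a, ha, one_mul a⟩
    have h₀ : ¬ p ∣ G₀.index := index_not_dvd A B S G₀ h.mul_eq hAG₀ hSG₀ hSi
    have h₁ : ¬ p ∣ G₁.index := index_not_dvd B A R G₁ hBA hBG₁ hRG₁ hRi
    have hmul : (G₀ : Set G) * (G₁ : Set G) = Set.univ := by
      rw [Set.eq_univ_iff_forall]
      intro z
      have hz : z ∈ (A : Set G) * (B : Set G) := by rw [h.mul_eq]; trivial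
      obtain ⟨a, ha, b, hb, hab⟩ := hz
      exact ⟨a, hAG₀ ha, b, hBG₁ hb, hab⟩
    rcases moves_factor G₀ G₁ hmul h₀ h₁ hmov with hm | hm
    · rcases half hpq A B S G₀ hSB hS h.left hG₀ hm with h3 | ⟨h3, h4, h5⟩
      · left; left
        obtain ⟨P', hP'⟩ := edge_of_moves hpq h3
        exact ⟨⟨hp, h3.dvd_card_left⟩, ⟨hq, h3.dvd_card⟩, P', hq, hP'⟩
      · right; right
        exact ⟨⟨hp, h4⟩, ⟨hq, h5⟩, h3⟩
    · rcases half hpq B A R G₁ hRA hR h.right hG₁ hm with h3 | ⟨h3, h4, h5⟩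
      · left; right
        obtain ⟨P', hP'⟩ := edge_of_moves hpq h3
        exact ⟨⟨hp, h3.dvd_card_left⟩, ⟨hq, h3.dvd_card⟩, P', hq, hP'⟩
      · right; left
        exact ⟨⟨hp, h4⟩, ⟨hq, h5⟩, h3⟩

end Pool.Agent.Results.MP_b4773a_al.SylowGraph
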